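import Mathlib
import Pool.Agent.H819.Down3

set_option autoImplicit false

open Filter

/-- Digit changes of the multiples `q^n x`, `n < M`, of an irrational algebraic number `x` in base
`b`. Let `b = u^k v^l` and `q = u^c v^d` with `u, v ≥ 2` coprime and `k d ≠ l c` (for instance any
coprime `b, q ≥ 2`, with `u = b`, `v = q`; or `b = 10` and `q = 2^c 5^d`, `c ≠ d`). Then for every
irrational algebraic `x` there is `C > 0` such that, for all large `M`, the number of pairs
`(n, i)`, `0 ≤ n, i < M`, such that the `(i+1)`-st and `(i+2)`-nd base-`b` digits after the point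
of `q^n x` are different is at least `C M^s` with `s = log 3 / log 2 > 1.58`. -/
theorem Pool.Agent.Results.MP_f2f914_nt.DigitChangesGasket.result :
    ∀ u v k l c d b q : ℕ, 2 ≤ u → 2 ≤ v → Nat.Coprime u v → b = u ^ k * v ^ l →
      q = u ^ c * v ^ d → k * d ≠ l * c →
      ∀ x : ℝ, Irrational x → IsAlgebraic ℚ x →
        ∃ C : ℝ, 0 < C ∧ ∀ᶠ M : ℕ in atTop, C * (M : ℝ) ^ (Real.log 3 / Real.log 2) ≤
          ((∑ n ∈ Finset.range M, ((Finset.range M).filter (fun i : ℕ =>
            ⌊(b : ℝ) ^ (i + 1) * ((q : ℝ) ^ n * x)⌋ % (b : ℤ) ≠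
              ⌊(b : ℝ) ^ (i + 2) * ((q : ℝ) ^ n * x)⌋ % (b : ℤ))).card : ℕ) : ℝ) :=
  fun u v k l c d _ _ hu hv huv hb hq hne _ hirr halg =>
    Pool.Agent.H819.changes_alg ⟨u, v, k, l, c, d, hu, hv, huv, hb, hq, hne⟩ hirr halg
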