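import Pool.Agent.H726R3.Tup4

/-!
# Products of digit counts of elements of a real number field

`digit b x i = ⌊x b^i⌋ mod b`, `cnt b d x N` is the number of `1 ≤ i ≤ N` with
`digit b x i ≠ d`, and `dsum b x N` is the sum of the first `N` digits after the point.
-/

set_option autoImplicit false

open Finset Filter IntermediateField

namespace Pool.Agent.Results.MP_f2f914_nt.DigitProducts

open Pool.Agent.H726R3.Joint

theorem result :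
    -- (1) a generator `α` and an arbitrary irrational element `θ` of `ℚ(α)`
    (∀ b : ℕ, 2 ≤ b → ∀ α : ℝ, IsAlgebraic ℚ α → Irrational α →
      ∀ θ ∈ ℚ⟮α⟯, Irrational θ → ∀ d e : ℤ, (d = 0 ∨ d = b - 1) → (e = 0 ∨ e = b - 1) →
        ∃ c : ℝ, 0 < c ∧ ∀ᶠ N : ℕ in atTop,
          c * N ≤ (cnt b d θ N : ℝ) * (cnt b e α N : ℝ) ^ ((minpoly ℚ α).natDegree - 1)) ∧
    -- (2) an irrational element `α` of a real number field `K` and a spanning family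
    (∀ b : ℕ, 2 ≤ b → ∀ K : IntermediateField ℚ ℝ, FiniteDimensional ℚ K →
      ∀ (r : ℕ) (ω : Fin r → ℝ), (∀ k, Irrational (ω k)) →
      (Submodule.span ℚ (insert 1 (Set.range ω)) : Set ℝ) = (K : Set ℝ) →
      ∀ e : Fin r → ℤ, (∀ k, e k = 0 ∨ e k = b - 1) →
      (∀ α ∈ K, Irrational α → ∀ d : ℤ, (d = 0 ∨ d = b - 1) →
        ∃ c : ℝ, 0 < c ∧ ∀ᶠ N : ℕ in atTop,
          c * N ≤ (cnt b d α N : ℝ) * ∑ k, (cnt b (e k) (ω k) N : ℝ)) ∧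
      (0 < r → ∃ c : ℝ, 0 < c ∧ ∀ᶠ N : ℕ in atTop,
        ∃ k, c * Real.sqrt N ≤ cnt b (e k) (ω k) N)) ∧
    -- (3) the powers of one algebraic number
    (∀ b : ℕ, 2 ≤ b → ∀ α : ℝ, IsAlgebraic ℚ α → Irrational α →
      ∀ e : ℕ → ℤ, (∀ k, e k = 0 ∨ e k = b - 1) →
      (∀ θ ∈ ℚ⟮α⟯, Irrational θ → ∀ d : ℤ, (d = 0 ∨ d = b - 1) →
        ∃ c : ℝ, 0 < c ∧ ∀ᶠ N : ℕ in atTop,
          c * N ≤ (cnt b d θ N : ℝ) *
            ∑ k ∈ Icc 1 ((minpoly ℚ α).natDegree - 1), (cnt b (e k) (α ^ k) N : ℝ)) ∧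
      (∃ c : ℝ, 0 < c ∧ ∀ᶠ N : ℕ in atTop, ∃ k, 1 ≤ k ∧ k < (minpoly ℚ α).natDegree ∧
        c * Real.sqrt N ≤ cnt b (e k) (α ^ k) N)) ∧
    -- (4) explicit constants
    (∀ b : ℕ, 2 ≤ b → ∀ (r : ℕ) (ω : Fin r → ℝ), (∀ k, Irrational (ω k)) → ∀ j : Fin r,
      IsAlgebraic ℚ (ω j) → ∀ q : ℕ, 1 ≤ q → ∀ (p0 : ℤ) (p : Fin r → ℤ),
      (q : ℝ) * (ω j * ∑ k, ω k) = p0 + ∑ k, (p k : ℝ) * ω k → ∀ η : ℝ, 0 < η →
      ∀ᶠ N : ℕ in atTop,
        (1 - η) * ((b : ℝ) - 1) * N ≤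
          q * (dsum b (ω j) N : ℝ) * ∑ k, (dsum b (ω k) N : ℝ)) := by
  refine ⟨?_, ?_, ?_, ?_⟩
  · intro b hb α halg hα θ hθ hirr d e hd he
    exact Pool.Agent.H726R3.Tup.single hb halg hα hθ hirr hd he
  · intro b hb K hK r ω hω hspan e he
    refine ⟨fun α hα hirr d hd => field_version hb K hω hspan hα hirr hd he, fun hr => ?_⟩
    have : Nonempty (Fin r) := ⟨⟨0, hr⟩⟩
    exact field_max hb K hω hspan he
  · intro b hb α halg hirr e he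
    exact ⟨fun θ hθ hθi d hd => power_version hb halg hθ hθi hd he, power_max hb halg hirr he⟩
  · intro b hb r ω hω j halg q hq p0 p hrel η hη
    exact explicit hb hω j halg hq hrel η hη

end Pool.Agent.Results.MP_f2f914_nt.DigitProducts
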