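import Pool.Agent.H820R3.DG.Real

/-!
# Digit sums of algebraic irrational numbers of degree `D`

No hypothesis is assumed.  Let `P` be an integer polynomial of degree `D ≥ 2` with leading
coefficient `± a`, let `ξ` be a real irrational root of `P`, and let `b ≥ 2`.  Let `S n` be the sum
of the first `n` base-`b` digits of `ξ` after the point, and `S' n` the sum of the complementary
digits `b - 1 - digit`.

1. If `g` divides a power of `b` and `a D!`, then `S n ^ D` and `S' n ^ D` are at least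
   `((b - 1) g / a - ε) n` for all large `n`.
2. More generally `g` may be replaced by `c / W`, if the sum over `j < W` of the representatives in
   `[1, a D!]` of `b ^ j t` modulo `a D!` is at least `c` for all integers `t`.
3. For the binary digits of a root of a cubic with leading coefficient `± 1`: at least
   `((3 - ε) n)^(1/3)` of the first `n` digits are ones, and as many are zeros.
-/

set_option autoImplicit false

open Finset Polynomial

namespace Pool.Agent.Results.MP_f2f914_nt.DigitSumsDegree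

/-- the `k`-th digit of `ξ` after the point in base `b` -/
noncomputable def digit (b : ℕ) (ξ : ℝ) (k : ℕ) : ℤ := ⌊ξ * (b : ℝ) ^ k⌋ % (b : ℤ)

/-- the sum of the first `n` digits -/
noncomputable def S (b : ℕ) (ξ : ℝ) (n : ℕ) : ℤ := ∑ k ∈ Icc 1 n, digit b ξ k

/-- the sum of the first `n` complementary digits -/
noncomputable def S' (b : ℕ) (ξ : ℝ) (n : ℕ) : ℤ := ∑ k ∈ Icc 1 n, (b - 1 - digit b ξ k)

lemma six_window (t : ℤ) (w : ℕ) :
    ((6 * w + 1 : ℕ) : ℤ) ≤ ∑ j ∈ range (2 * w + 1), (((2 : ℤ) ^ j * t - 1) % 6 + 1) := by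
  induction w with
  | zero => simp; omega
  | succ w ih =>
    rw [show 2 * (w + 1) + 1 = (2 * w + 1) + 1 + 1 by ring, sum_range_succ, sum_range_succ]
    have h1 : ∃ u : ℤ, (2 : ℤ) ^ (2 * w + 1) * t = 2 * u := ⟨2 ^ (2 * w) * t, by ring⟩
    obtain ⟨u, hu⟩ := h1
    have h2 : (2 : ℤ) ^ (2 * w + 1 + 1) * t = 4 * u := by
      rw [pow_succ, mul_comm ((2 : ℤ) ^ (2 * w + 1)) 2, mul_assoc, hu]; ring
    rw [hu, h2]
    have h3 : (6 : ℤ) ≤ ((2 * u - 1) % 6 + 1) + ((4 * u - 1) % 6 + 1) := by omega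
    push_cast at ih ⊢
    linarith

/-- The result. -/
theorem result :
    (∀ b : ℕ, 2 ≤ b → ∀ P : ℤ[X], 2 ≤ P.natDegree → ∀ ξ : ℝ, Irrational ξ → aeval ξ P = 0 →
      ∀ g v : ℕ, g ∣ b ^ v → (g : ℤ) ∣ P.leadingCoeff * (P.natDegree.factorial : ℤ) →
      ∀ ε : ℝ, 0 < ε → ∃ n₀ : ℕ, ∀ n : ℕ, n₀ ≤ n →
        (((b : ℝ) - 1) * g / |(P.leadingCoeff : ℝ)| - ε) * n ≤ (S b ξ n : ℝ) ^ P.natDegree ∧
        (((b : ℝ) - 1) * g / |(P.leadingCoeff : ℝ)| - ε) * n ≤ (S' b ξ n : ℝ) ^ P.natDegree) ∧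
    (∀ b : ℕ, 2 ≤ b → ∀ P : ℤ[X], 2 ≤ P.natDegree → ∀ ξ : ℝ, Irrational ξ → aeval ξ P = 0 →
      ∀ W c : ℕ, 1 ≤ W → (∀ t : ℤ, (c : ℤ) ≤ ∑ j ∈ range W,
        (((b : ℤ) ^ j * t - 1) % (|P.leadingCoeff| * (P.natDegree.factorial : ℤ)) + 1)) →
      ∀ ε : ℝ, 0 < ε → ∃ n₀ : ℕ, ∀ n : ℕ, n₀ ≤ n →
        (((b : ℝ) - 1) * c / (W * |(P.leadingCoeff : ℝ)|) - ε) * n ≤
          (S b ξ n : ℝ) ^ P.natDegree ∧
        (((b : ℝ) - 1) * c / (W * |(P.leadingCoeff : ℝ)|) - ε) * n ≤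
          (S' b ξ n : ℝ) ^ P.natDegree) ∧
    (∀ P : ℤ[X], P.natDegree = 3 → |P.leadingCoeff| = 1 → ∀ ξ : ℝ, Irrational ξ →
      aeval ξ P = 0 → ∀ ε : ℝ, 0 < ε → ∃ n₀ : ℕ, ∀ n : ℕ, n₀ ≤ n →
        (3 - ε) * n ≤ (((Icc 1 n).filter (fun k => digit 2 ξ k = 1)).card : ℝ) ^ 3 ∧
        (3 - ε) * n ≤ (((Icc 1 n).filter (fun k => digit 2 ξ k = 0)).card : ℝ) ^ 3) := by
  refine ⟨fun b hb P hD ξ hξ hP g v hg1 hg2 ε hε =>
      Pool.Agent.H820R3.DG.deg_gcd hb P hD hξ hP g v hg1 hg2 ε hε,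
    fun b hb P hD ξ hξ hP W c hW hc ε hε =>
      Pool.Agent.H820R3.DG.deg_both hb P hD hξ hP W c hW hc ε hε, ?_⟩
  intro P hD hl ξ hξ hP ε hε
  obtain ⟨w, hw⟩ := exists_nat_ge (2 / ε)
  obtain ⟨n0, h⟩ := Pool.Agent.H820R3.DG.deg_both (b := 2) le_rfl P (by omega) hξ hP
    (2 * w + 1) (6 * w + 1) (by omega) (by
      intro t
      rw [hl, hD]
      have := six_window t w
      simpa [Nat.factorial] using this) (ε / 2) (by positivity)
  have hlR : |(P.leadingCoeff : ℝ)| = 1 := by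
    have : ((|P.leadingCoeff| : ℤ) : ℝ) = 1 := by rw [hl]; norm_num
    rw [← this]; push_cast; rfl
  have hd : ∀ k, digit 2 ξ k = 0 ∨ digit 2 ξ k = 1 := by
    intro k
    unfold digit
    push_cast
    omega
  have hcmp : 3 - ε ≤ (((2 : ℕ) : ℝ) - 1) * ((6 * w + 1 : ℕ) : ℝ) /
      (((2 * w + 1 : ℕ) : ℝ) * |(P.leadingCoeff : ℝ)|) - ε / 2 := by
    rw [hlR, mul_one]
    push_cast
    have hw0 : (0 : ℝ) ≤ w := Nat.cast_nonneg _
    have h1 : (0 : ℝ) < 2 * (w : ℝ) + 1 := by linarith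
    have h2 : (3 - ε / 2) * (2 * (w : ℝ) + 1) ≤ (2 - 1) * (6 * w + 1) := by
      rw [div_le_iff₀ hε] at hw
      nlinarith
    have h3 : 3 - ε / 2 ≤ (2 - 1) * (6 * (w : ℝ) + 1) / (2 * w + 1) := by
      rw [le_div_iff₀ h1]; exact h2
    linarith
  refine ⟨n0, fun n hn => ?_⟩
  have h1 := h n hn
  rw [hD] at h1
  have h2 := mul_le_mul_of_nonneg_right hcmp (Nat.cast_nonneg n : (0 : ℝ) ≤ n)
  constructor
  · refine h2.trans (h1.1.trans (le_of_eq ?_))
    congr 1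
    rw [card_filter]
    push_cast
    refine sum_congr rfl fun k _ => ?_
    have e : Pool.Agent.H820R3.DG.digit 2 ξ k = digit 2 ξ k := rfl
    rw [e]
    rcases hd k with h3 | h3 <;> rw [h3] <;> norm_num
  · refine h2.trans (h1.2.trans (le_of_eq ?_))
    congr 1
    rw [card_filter]
    push_cast
    refine sum_congr rfl fun k _ => ?_
    have e : Pool.Agent.H820R3.DG.digit 2 ξ k = digit 2 ξ k := rfl
    rw [e]
    rcases hd k with h3 | h3 <;> rw [h3] <;> norm_num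

end Pool.Agent.Results.MP_f2f914_nt.DigitSumsDegree
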