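import Mathlib
import Pool.Agent.H352.Win.Expansion

set_option autoImplicit false

namespace Pool.Agent.Results.MP_f2f914_nt.WindowIndependence

/-- Let `x` be an irrational algebraic number, `r ≥ 2`, and let `x = ∑_{n ≥ 0} c_n r^(-n)` be an
expansion of `x` with integers `c_n`, `|c_n| ≤ B` for `n ≥ 1` (for instance the usual base-`r`
expansion, `c_n = ⌊x r^n⌋ mod r`).  Fix `D, E, K, C` and `ε > 0`.  For all large `m`: no nontrivial
real linear combination of `D` windows `(c_{t_j + 1}, …, c_{t_j + m})`, at distinct places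
`t_j ≤ C m`, agrees outside `K` coordinates with a sum of `E` periodic sequences whose periods add up
to at most `(1 - ε) m / (K + 1)`.  The bound `M` for `m` does not depend on the expansion. -/
theorem result (x : ℝ) (hx : IsAlgebraic ℚ x) (hirr : Irrational x) (r : ℕ) (hr : 2 ≤ r)
    (B D E K C : ℕ) (ε : ℝ) (hε : 0 < ε) :
    ∃ M : ℕ, ∀ c : ℕ → ℤ, (∀ n, 1 ≤ n → |c n| ≤ B) →
      HasSum (fun n : ℕ => (c n : ℝ) / (r : ℝ) ^ n) x →
      ∀ m : ℕ, M ≤ m → ∀ t : Fin D → ℕ, Function.Injective t → (∀ j, t j ≤ C * m) →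
      ∀ lam : Fin D → ℝ, lam ≠ 0 → ∀ p : Fin E → ℕ, (∀ l, 0 < p l) →
      ((∑ l, p l : ℕ) : ℝ) ≤ (1 - ε) * m / (K + 1) →
      ∀ f : Fin E → ℕ → ℝ, (∀ l i, f l (i + p l) = f l i) →
      K < ((Finset.range m).filter
        (fun i => ∑ j, lam j * (c (t j + i + 1) : ℝ) ≠ ∑ l, f l i)).card :=
  Pool.Agent.H352.Win.expansion r hr x hx hirr B D E K C ε hε

end Pool.Agent.Results.MP_f2f914_nt.WindowIndependence
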